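import Mathlib
import Pool.Agent.H27.HardyB

namespace Pool.Agent.Results.MP_efe325_an.Equiv

open Pool.Agent.H27.Hardy MeasureTheory
open scoped NNReal ComplexOrder

theorem both (𝕜 : Type) [RCLike 𝕜] :
    (∃ (H : Type) (_ : NormedAddCommGroup H) (_ : InnerProductSpace 𝕜 H) (_ : CompleteSpace H)
      (_ : RKHS 𝕜 H (Vx × Vx) 𝕜), RKHS.kernel H = absK 𝕜) ∧
    ∀ (H : Type) [NormedAddCommGroup H] [InnerProductSpace 𝕜 H] [CompleteSpace H]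
      [RKHS 𝕜 H (Vx × Vx) 𝕜], RKHS.kernel H = absK 𝕜 →
      ∀ [MeasurableSpace Vx] [DiscreteMeasurableSpace Vx] (μ : Measure Vx),
        ((∃ C : ℝ≥0, CondA 𝕜 μ C) ↔ (∃ C : ℝ≥0, CondB 𝕜 H μ C)) ∧
        (∀ C : ℝ≥0, CondA 𝕜 μ C → CondB 𝕜 H μ (4 * C)) ∧
        (∀ C : ℝ≥0, CondB 𝕜 H μ C → CondA 𝕜 μ C) := by
  refine ⟨?_, fun H _ _ _ _ hK _ _ μ => ⟨⟨?_, ?_⟩, fun C h => a_to_b hK h, fun C h => b_to_a hK h⟩⟩
  · haveI : Fact (absK 𝕜).PosSemidef := ⟨absK_psd⟩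
    exact ⟨RKHS.OfKernel (absK 𝕜), inferInstance, inferInstance, inferInstance, inferInstance,
      RKHS.OfKernel.kernel_ofKernel⟩
  · rintro ⟨C, h⟩; exact ⟨_, a_to_b hK h⟩
  · rintro ⟨C, h⟩; exact ⟨_, b_to_a hK h⟩

theorem result (𝕜 : Type) [RCLike 𝕜] :
    (∃ (H : Type) (_ : NormedAddCommGroup H) (_ : InnerProductSpace 𝕜 H) (_ : CompleteSpace H)
      (_ : RKHS 𝕜 H (Vx × Vx) 𝕜), RKHS.kernel H = absK 𝕜) ∧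
    ∀ (H : Type) [NormedAddCommGroup H] [InnerProductSpace 𝕜 H] [CompleteSpace H]
      [RKHS 𝕜 H (Vx × Vx) 𝕜], RKHS.kernel H = absK 𝕜 →
      ∀ [MeasurableSpace Vx] [DiscreteMeasurableSpace Vx] (μ : Measure Vx),
        (∃ C : ℝ≥0, CondA 𝕜 μ C) ↔ (∃ C : ℝ≥0, CondB 𝕜 H μ C) :=
  ⟨(both 𝕜).1, fun H _ _ _ _ h _ _ μ => ((both 𝕜).2 H h μ).1⟩

end Pool.Agent.Results.MP_efe325_an.Equiv
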